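import Pool.Agent.H56.EH.Def2

/-!
# A discrete KKM lemma on monotone tuples

Module KKM.  The proof counts modulo 2 the chains of a unit cube by their label sets.
-/

set_option autoImplicit false

namespace Pool.Agent.H98.EH.KKM

open Finset Pool.Agent.H56.EH

/-- functions on label sets -/
abbrev V := Finset ℕ → ZMod 2

/-- multiplication by a label -/
def Mop (l : ℕ) (F : V) : V := fun T => if l ∈ T then F (T.erase l) else 0

/-- the derivation which removes a label -/
def Dop (K : ℕ) (F : V) : V := fun T => ∑ j ∈ range K \ T, F (insert j T)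

/-- the unit -/
def one : V := fun T => if T = ∅ then 1 else 0

lemma Mop_add (l : ℕ) (F G : V) : Mop l (F + G) = Mop l F + Mop l G := by
  funext T
  simp only [Mop, Pi.add_apply]
  split_ifs <;> simp

lemma Mop_zero (l : ℕ) : Mop l 0 = 0 := by
  funext T
  simp [Mop]

lemma Mop_sum {ι : Type} (l : ℕ) (s : Finset ι) (F : ι → V) :
    Mop l (∑ i ∈ s, F i) = ∑ i ∈ s, Mop l (F i) := by
  classical
  induction s using Finset.induction_on with
  | empty => simp [Mop_zero]
  | insert a s ha ih => rw [sum_insert ha, sum_insert ha, Mop_add, ih]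

lemma Dop_add (K : ℕ) (F G : V) : Dop K (F + G) = Dop K F + Dop K G := by
  funext T
  simp [Dop, sum_add_distrib]

lemma Dop_zero (K : ℕ) : Dop K 0 = 0 := by
  funext T
  simp [Dop]

lemma Dop_sum {ι : Type} (K : ℕ) (s : Finset ι) (F : ι → V) :
    Dop K (∑ i ∈ s, F i) = ∑ i ∈ s, Dop K (F i) := by
  classical
  induction s using Finset.induction_on with
  | empty => simp [Dop_zero]
  | insert a s ha ih => rw [sum_insert ha, sum_insert ha, Dop_add, ih]

lemma Dop_one (K : ℕ) : Dop K one = 0 := by
  funext T
  simp [Dop, one]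

lemma leib (K l : ℕ) (hl : l < K) (F : V) : Dop K (Mop l F) = F + Mop l (Dop K F) := by
  funext T
  simp only [Dop, Mop, Pi.add_apply]
  by_cases h : l ∈ T
  · rw [if_pos h]
    have h1 : ∀ j ∈ range K \ T, (if l ∈ insert j T then F ((insert j T).erase l) else 0)
        = F (insert j (T.erase l)) := by
      intro j hj
      have hjl : j ≠ l := by
        rintro rfl
        exact (mem_sdiff.mp hj).2 h
      rw [if_pos (mem_insert_of_mem h), erase_insert_of_ne hjl]
    rw [sum_congr rfl h1]
    have h2 : range K \ T.erase l = insert l (range K \ T) := by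
      ext j
      simp only [mem_sdiff, mem_range, mem_erase, mem_insert, not_and]
      constructor
      · rintro ⟨h3, h4⟩
        by_cases hjl : j = l
        · exact Or.inl hjl
        · exact Or.inr ⟨h3, h4 hjl⟩
      · rintro (rfl | ⟨h3, h4⟩)
        · exact ⟨hl, fun h5 => absurd rfl h5⟩
        · exact ⟨h3, fun _ => h4⟩
    rw [h2, sum_insert (by simp [h]), insert_erase h, ← add_assoc, CharTwo.add_self_eq_zero,
      zero_add]
  · rw [if_neg h, add_zero]
    rw [sum_eq_single_of_mem l (by simp [h, hl])]
    · rw [if_pos (mem_insert_self l T), erase_insert h]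
    · intro j hj hjl
      rw [if_neg]
      simp only [mem_insert, not_or]
      exact ⟨fun h5 => hjl h5.symm, h⟩

variable {k : ℕ}

/-- chains of a cube by label sets -/
def W (ℓ : (Fin k → ℕ) → ℕ) : ℕ → (Fin k → ℕ) → Finset (Fin k) → V
  | 0, x, _ => Mop (ℓ x) one
  | n + 1, x, S => Mop (ℓ x) (∑ a ∈ S, W ℓ n (x + Pi.single a 1) (S.erase a))

lemma dW0 (ℓ : (Fin k → ℕ) → ℕ) (K : ℕ) (x : Fin k → ℕ) (hl : ℓ x < K) (S : Finset (Fin k)) :
    Dop K (W ℓ 0 x S) = one := by
  rw [W, leib K _ hl, Dop_one, Mop_zero, add_zero]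

/-- sums over ordered pairs of a symmetric function vanish modulo 2 -/
lemma sym_sum (S : Finset (Fin k)) (g : Fin k → Fin k → V) (hg : ∀ a b, g a b = g b a) :
    ∑ a ∈ S, ∑ b ∈ S.erase a, g a b = 0 := by
  rw [sum_sigma']
  refine sum_involution (fun z _ => ⟨z.2, z.1⟩) ?_ ?_ ?_ ?_
  · rintro ⟨a, b⟩ _
    funext T
    simp only [hg b a, Pi.add_apply, Pi.zero_apply]
    exact CharTwo.add_self_eq_zero _
  · rintro ⟨a, b⟩ h _ h2
    simp only [mem_sigma, mem_erase] at h
    exact h.2.1 (by injection h2)
  · rintro ⟨a, b⟩ h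
    simp only [mem_sigma, mem_erase] at h ⊢
    exact ⟨h.2.2, fun h3 => h.2.1 h3.symm, h.1⟩
  · rintro ⟨a, b⟩ _
    rfl

lemma sum_comm_erase (S : Finset (Fin k)) (g : Fin k → Fin k → V) :
    ∑ a ∈ S, ∑ b ∈ S.erase a, g a b = ∑ b ∈ S, ∑ a ∈ S.erase b, g a b := by
  refine sum_comm' ?_
  intro a b
  simp only [mem_erase]
  constructor
  · rintro ⟨h1, h2, h3⟩
    exact ⟨⟨fun h => h2 h.symm, h1⟩, h3⟩
  · rintro ⟨⟨h1, h2⟩, h3⟩
    exact ⟨h2, fun h => h1 h.symm, h3⟩

lemma dW (ℓ : (Fin k → ℕ) → ℕ) (K : ℕ) (hl : ∀ x, ℓ x < K) : ∀ (n : ℕ) (x : Fin k → ℕ)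
    (S : Finset (Fin k)), S.card = n + 1 → Dop K (W ℓ (n + 1) x S) =
      ∑ a ∈ S, (W ℓ n (x + Pi.single a 1) (S.erase a) + W ℓ n x (S.erase a)) := by
  intro n
  induction n with
  | zero =>
    intro x S hS
    rw [W, leib K _ (hl x), Dop_sum, sum_add_distrib]
    congr 1
    obtain ⟨a, rfl⟩ := card_eq_one.mp hS
    rw [sum_singleton, sum_singleton, dW0 ℓ K _ (hl _), W]
  | succ n ih =>
    intro x S hS
    rw [W, leib K _ (hl x), Dop_sum, sum_add_distrib]
    congr 1
    have h1 : ∑ a ∈ S, Dop K (W ℓ (n + 1) (x + Pi.single a 1) (S.erase a))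
        = ∑ a ∈ S, ∑ b ∈ S.erase a, W ℓ n (x + Pi.single a 1) ((S.erase a).erase b) := by
      have h2 : ∀ a ∈ S, Dop K (W ℓ (n + 1) (x + Pi.single a 1) (S.erase a))
          = ∑ b ∈ S.erase a, W ℓ n (x + Pi.single a 1 + Pi.single b 1) ((S.erase a).erase b)
          + ∑ b ∈ S.erase a, W ℓ n (x + Pi.single a 1) ((S.erase a).erase b) := by
        intro a ha
        rw [ih _ _ (by rw [card_erase_of_mem ha, hS]; rfl), sum_add_distrib]
      rw [sum_congr rfl h2, sum_add_distrib, sym_sum, zero_add]
      intro a b
      rw [add_assoc, add_assoc, add_comm (Pi.single a 1 : Fin k → ℕ), erase_right_comm]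
    rw [h1, sum_comm_erase, Mop_sum]
    refine sum_congr rfl fun b _ => ?_
    rw [W]
    congr 1
    refine sum_congr rfl fun a _ => ?_
    rw [erase_right_comm]

/-- a label which does not occur in the cube does not occur in the label sets -/
lemma W_zero (ℓ : (Fin k → ℕ) → ℕ) (a : ℕ) (T : Finset ℕ) (haT : a ∈ T) : ∀ (n : ℕ)
    (x : Fin k → ℕ) (S : Finset (Fin k)),
    (∀ y, x ≤ y → (∀ i, y i ≤ x i + 1) → (∀ i ∉ S, y i = x i) → ℓ y ≠ a) →
    W ℓ n x S T = 0 := by
  intro n
  induction n generalizing T with
  | zero =>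
    intro x S h
    have hx := h x le_rfl (fun i => by omega) (fun i _ => rfl)
    simp only [W, Mop, one]
    split_ifs with h1 h2
    · exfalso
      have : a ∈ T.erase (ℓ x) := mem_erase.mpr ⟨fun h3 => hx h3.symm, haT⟩
      rw [h2] at this
      simp at this
    · rfl
    · rfl
  | succ n ih =>
    intro x S h
    have hx := h x le_rfl (fun i => by omega) (fun i _ => rfl)
    simp only [W, Mop]
    split_ifs with h1
    · rw [Finset.sum_apply]
      refine sum_eq_zero fun b hb => ?_
      refine ih (T.erase (ℓ x)) (mem_erase.mpr ⟨fun h3 => hx h3.symm, haT⟩) _ _ ?_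
      intro y hy1 hy2 hy3
      refine h y ?_ ?_ ?_
      · intro i
        have := hy1 i
        simp only [Pi.add_apply] at this
        exact le_trans (Nat.le_add_right _ _) this
      · intro i
        by_cases hib : i = b
        · subst hib
          have := hy3 i (by simp)
          simp only [Pi.add_apply, Pi.single_eq_same] at this
          omega
        · have := hy2 i
          simp only [Pi.add_apply, Pi.single_eq_of_ne hib] at this
          omega
      · intro i hi
        have hib : i ≠ b := by
          rintro rfl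
          exact hi hb
        have := hy3 i (by simp [hi])
        simp only [Pi.add_apply, Pi.single_eq_of_ne hib] at this
        omega
    · rfl

open Function in
lemma sum_box (t : Fin k → Finset ℕ) (a : Fin k) (s : Finset ℕ) (H : (Fin k → ℕ) → V) :
    ∑ x ∈ Fintype.piFinset (update t a s), H x
      = ∑ y ∈ Fintype.piFinset (update t a {0}), ∑ i ∈ s, H (update y a i) := by
  rw [← sum_product']
  refine sum_nbij' (fun x => (update x a 0, x a)) (fun z => update z.1 a z.2) ?_ ?_ ?_ ?_ ?_
  · intro x hx
    rw [Fintype.mem_piFinset] at hx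
    rw [mem_product, Fintype.mem_piFinset]
    refine ⟨fun j => ?_, ?_⟩
    · by_cases hj : j = a
      · subst hj
        simp
      · have := hx j
        simpa [update_of_ne hj] using this
    · simpa using hx a
  · intro z hz
    rw [mem_product, Fintype.mem_piFinset] at hz
    rw [Fintype.mem_piFinset]
    intro j
    by_cases hj : j = a
    · subst hj
      simpa using hz.2
    · have := hz.1 j
      simpa [update_of_ne hj] using this
  · intro x _
    simp
  · intro z hz
    rw [mem_product, Fintype.mem_piFinset] at hz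
    have h0 : z.1 a = 0 := by simpa using hz.1 a
    ext1
    · simp only [update_idem]
      rw [← h0, update_eq_self]
    · simp
  · intro x _
    simp

lemma tele_range (g : ℕ → V) (N : ℕ) :
    ∑ i ∈ range N, (g (i + 1) + g i) = g N + g 0 := by
  induction N with
  | zero =>
    rw [range_zero, sum_empty]
    funext T
    exact (CharTwo.add_self_eq_zero _).symm
  | succ n ih =>
    rw [sum_range_succ, ih]
    funext T
    simp only [Pi.add_apply]
    have := CharTwo.add_self_eq_zero (g n T)
    linear_combination this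

open Function in
lemma tele (t : Fin k → Finset ℕ) (a : Fin k) (N : ℕ) (ht : t a = range N)
    (G : (Fin k → ℕ) → V) :
    ∑ x ∈ Fintype.piFinset t, (G (x + Pi.single a 1) + G x)
      = ∑ x ∈ Fintype.piFinset (update t a {N}), G x
        + ∑ x ∈ Fintype.piFinset (update t a {0}), G x := by
  have h1 : update t a (range N) = t := by rw [← ht, update_eq_self]
  have e1 := sum_box t a (range N) (fun x => G (x + Pi.single a 1) + G x)
  have e2 := sum_box t a {N} G
  rw [h1] at e1
  rw [e1, e2, ← sum_add_distrib]
  · refine sum_congr rfl fun y hy => ?_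
    have hy0 : y a = 0 := by simpa using (Fintype.mem_piFinset.mp hy) a
    have h2 : ∀ i, update y a i + Pi.single a 1 = update y a (i + 1) := by
      intro i
      funext j
      by_cases hj : j = a
      · subst hj
        simp
      · simp [update_of_ne hj, Pi.single_eq_of_ne hj]
    simp only [h2]
    rw [tele_range (fun i => G (update y a i)) N]
    simp only [sum_singleton]
    rw [← hy0, update_eq_self]

/-- the boxes: the last coordinates are `N` -/
def box (k N m : ℕ) : Fin k → Finset ℕ := fun j => if j.val < m then range N else {N}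

/-- the first directions -/
def dir (k m : ℕ) : Finset (Fin k) := univ.filter fun j => j.val < m

lemma card_dir {m : ℕ} (hm : m ≤ k) : (dir k m).card = m := by
  rw [dir, Fin.card_filter_val_lt]
  omega

/-- the count is odd -/
lemma count (N : ℕ) (ℓ : (Fin k → ℕ) → ℕ) (hl : ∀ x, ℓ x < k + 1)
    (h0 : ∀ x : Fin k → ℕ, (∀ i, x i ≤ N) → ∀ j : Fin k, x j = 0 → ℓ x ≠ j)
    (hN : ∀ x : Fin k → ℕ, (∀ i, x i ≤ N) → ∀ j : Fin k, x j = N → ℓ x ≤ j) :
    ∀ m ≤ k, (∑ x ∈ Fintype.piFinset (box k N m), W ℓ m x (dir k m)) (range (m + 1)) = 1 := by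
  intro m
  induction m with
  | zero =>
    intro _
    have hb : Fintype.piFinset (box k N 0) = {fun _ => N} := by
      ext x
      simp only [box, Fintype.mem_piFinset, mem_singleton, Nat.not_lt_zero, if_false]
      exact ⟨fun h => funext h, fun h j => congrFun h j⟩
    rw [hb, sum_singleton]
    have hz : ℓ (fun _ => N) = 0 := by
      rcases Nat.eq_zero_or_pos k with hk | hk
      · have := hl (fun _ => N)
        omega
      · have := hN (fun _ => N) (fun _ => le_rfl) ⟨0, hk⟩ rfl
        simpa using this
    simp [W, Mop, one, hz]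
  | succ m ih =>
    intro hm
    have ih' := ih (by omega)
    set A : V := ∑ x ∈ Fintype.piFinset (box k N (m + 1)), W ℓ (m + 1) x (dir k (m + 1)) with hA
    -- the derivative of the sum
    have hD : Dop (k + 1) A = ∑ a ∈ dir k (m + 1),
        (∑ x ∈ Fintype.piFinset (Function.update (box k N (m + 1)) a {N}),
            W ℓ m x ((dir k (m + 1)).erase a)
          + ∑ x ∈ Fintype.piFinset (Function.update (box k N (m + 1)) a {0}),
            W ℓ m x ((dir k (m + 1)).erase a)) := by
      rw [hA, Dop_sum]
      rw [sum_congr rfl fun x _ => dW ℓ (k + 1) hl m x _ (card_dir hm), sum_comm]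
      refine sum_congr rfl fun a ha => ?_
      refine tele _ a N ?_ (fun x => W ℓ m x ((dir k (m + 1)).erase a))
      simp only [dir, mem_filter] at ha
      simp [box, ha.2]
    -- left side
    have hL : Dop (k + 1) A (range (m + 1)) = A (range (m + 2)) := by
      rw [Dop]
      have hmem : m + 1 ∈ range (k + 1) \ range (m + 1) := by simp; omega
      rw [sum_eq_single_of_mem (m + 1) hmem]
      · rw [← range_add_one]
      · intro j hj hjm
        have hj1 : m + 1 < j := by
          simp only [mem_sdiff, mem_range] at hj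
          omega
        have hj2 : j < k + 1 := by
          simp only [mem_sdiff, mem_range] at hj
          omega
        rw [hA, Finset.sum_apply]
        refine sum_eq_zero fun x hx => ?_
        refine W_zero ℓ j _ (mem_insert_self _ _) _ _ _ ?_
        intro y hy1 hy2 hy3
        rw [Fintype.mem_piFinset] at hx
        have hm1 : m + 1 < k := by omega
        have hyN : y ⟨m + 1, hm1⟩ = N := by
          rw [hy3 _ (by simp [dir])]
          simpa [box] using hx ⟨m + 1, hm1⟩
        have hyle : ∀ i, y i ≤ N := by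
          intro i
          have hxi := hx i
          by_cases hi : i.val < m + 1
          · simp only [box, hi, if_true, mem_range] at hxi
            have := hy2 i
            omega
          · simp only [box, hi, if_false, mem_singleton] at hxi
            rw [hy3 i (by simp [dir]; omega), hxi]
        have := hN y hyle _ hyN
        simp only at this
        omega
    have hlast : (⟨m, by omega⟩ : Fin k) ∈ dir k (m + 1) := by simp [dir]
    -- the faces
    have hcube : ∀ (a : Fin k) (c : ℕ), c ≤ N →
        ∀ x ∈ Fintype.piFinset (Function.update (box k N (m + 1)) a {c}),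
        ∀ y : Fin k → ℕ, (∀ i, y i ≤ x i + 1) → (∀ i ∉ (dir k (m + 1)).erase a, y i = x i) →
          (∀ i, y i ≤ N) ∧ y a = c := by
      intro a c hc x hx y hy2 hy3
      rw [Fintype.mem_piFinset] at hx
      have hya : y a = c := by
        rw [hy3 a (by simp)]
        simpa using hx a
      refine ⟨fun i => ?_, hya⟩
      by_cases hia : i = a
      · rw [hia, hya]
        exact hc
      · have hxi := hx i
        rw [Function.update_of_ne hia] at hxi
        by_cases hi : i.val < m + 1
        · simp only [box, hi, if_true, mem_range] at hxi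
          have := hy2 i
          omega
        · simp only [box, hi, if_false, mem_singleton] at hxi
          rw [hy3 i (by simp [dir]; omega), hxi]
    have hzero : ∀ a ∈ dir k (m + 1),
        (∑ x ∈ Fintype.piFinset (Function.update (box k N (m + 1)) a {0}),
            W ℓ m x ((dir k (m + 1)).erase a)) (range (m + 1)) = 0 := by
      intro a ha
      have ham : a.val < m + 1 := by simpa [dir] using ha
      rw [Finset.sum_apply]
      refine sum_eq_zero fun x hx => ?_
      refine W_zero ℓ a.val _ (mem_range.mpr ham) _ _ _ ?_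
      intro y _ hy2 hy3
      obtain ⟨h5, h6⟩ := hcube a 0 (Nat.zero_le _) x hx y hy2 hy3
      exact h0 y h5 a h6
    have hR : Dop (k + 1) A (range (m + 1)) = 1 := by
      rw [hD, Finset.sum_apply, sum_eq_single_of_mem _ hlast]
      · have he1 : Function.update (box k N (m + 1)) ⟨m, by omega⟩ {N} = box k N m := by
          funext j
          by_cases hj : j = ⟨m, by omega⟩
          · subst hj
            simp [box]
          · rw [Function.update_of_ne hj]
            have hjm : j.val ≠ m := fun h => hj (Fin.ext h)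
            have h7 : (j.val < m + 1) ↔ (j.val < m) := by omega
            simp only [box, h7]
        have he2 : (dir k (m + 1)).erase ⟨m, by omega⟩ = dir k m := by
          ext j
          simp only [dir, mem_erase, mem_filter, mem_univ, true_and, ne_eq, Fin.ext_iff]
          omega
        rw [Pi.add_apply, hzero _ hlast, he1, he2, ih', add_zero]
      · intro a ha ham
        have ham' : a.val < m := by
          have h8 : a.val < m + 1 := by simpa [dir] using ha
          have h9 : a.val ≠ m := fun h => ham (Fin.ext h)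
          omega
        rw [Pi.add_apply, hzero a ha, add_zero, Finset.sum_apply]
        refine sum_eq_zero fun x hx => ?_
        refine W_zero ℓ m _ (mem_range.mpr (by omega)) _ _ _ ?_
        intro y _ hy2 hy3
        obtain ⟨h5, h6⟩ := hcube a N le_rfl x hx y hy2 hy3
        have := hN y h5 a h6
        omega
    rw [← hL, hR]

/-- the cubical lemma: some cube has all labels -/
lemma cube (N : ℕ) (ℓ : (Fin k → ℕ) → ℕ) (hl : ∀ x, ℓ x < k + 1)
    (h0 : ∀ x : Fin k → ℕ, (∀ i, x i ≤ N) → ∀ j : Fin k, x j = 0 → ℓ x ≠ j)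
    (hN : ∀ x : Fin k → ℕ, (∀ i, x i ≤ N) → ∀ j : Fin k, x j = N → ℓ x ≤ j) :
    ∃ x : Fin k → ℕ, (∀ i, x i + 1 ≤ N) ∧ ∀ j < k + 1, ∃ y : Fin k → ℕ,
      (∀ i, x i ≤ y i) ∧ (∀ i, y i ≤ x i + 1) ∧ ℓ y = j := by
  have h := count N ℓ hl h0 hN k le_rfl
  have h1 : ∃ x ∈ Fintype.piFinset (box k N k), W ℓ k x (dir k k) (range (k + 1)) ≠ 0 := by
    by_contra hcon
    push Not at hcon
    rw [Finset.sum_apply, sum_eq_zero hcon] at h
    exact zero_ne_one h
  obtain ⟨x, hx, hW⟩ := h1
  refine ⟨x, ?_, ?_⟩
  · intro i
    have := (Fintype.mem_piFinset.mp hx) i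
    simp only [box, i.2, if_true, mem_range] at this
    omega
  · intro j hj
    by_contra hcon
    push Not at hcon
    refine hW (W_zero ℓ j _ (mem_range.mpr hj) _ _ _ ?_)
    intro y hy1 hy2 _
    exact hcon y hy1 hy2

/-- the running maximum -/
def rmax (y : Fin k → ℕ) : Fin k → ℕ := fun i => (Finset.Iic i).sup y

lemma rmax_mono (y : Fin k → ℕ) : Monotone (rmax y) := fun _ _ h =>
  Finset.sup_mono (Finset.Iic_subset_Iic.mpr h)

lemma rmax_le {N : ℕ} (y : Fin k → ℕ) (h : ∀ i, y i ≤ N) (i : Fin k) : rmax y i ≤ N :=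
  Finset.sup_le fun j _ => h j

lemma le_rmax (y : Fin k → ℕ) {i j : Fin k} (h : j ≤ i) : y j ≤ rmax y i :=
  Finset.le_sup (f := y) (Finset.mem_Iic.mpr h)

/-- **Discrete KKM lemma** on monotone tuples. -/
theorem kkm (k N : ℕ) (lab : (Fin k → ℕ) → Fin (k + 1))
    (hlab : ∀ x, Monotone x → (∀ i, x i ≤ N) → gap N x (lab x) ≠ 0) :
    ∃ x, Monotone x ∧ (∀ i, x i ≤ N) ∧ ∀ j : Fin (k + 1), ∃ y, Monotone y ∧ (∀ i, y i ≤ N) ∧
      (∀ i, x i ≤ y i ∧ y i ≤ x i + 1) ∧ lab y = j := by
  have h0 : ∀ x : Fin k → ℕ, (∀ i, x i ≤ N) → ∀ j : Fin k, x j = 0 →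
      (lab (rmax x)).val ≠ j := by
    intro x hx j hj h
    refine hlab (rmax x) (rmax_mono x) (rmax_le x hx) ?_
    have hjk : (lab (rmax x)).val < k := by omega
    rw [gap, dif_pos hjk]
    have he : (⟨(lab (rmax x)).val, hjk⟩ : Fin k) = j := Fin.ext h
    rw [he]
    refine Nat.sub_eq_zero_of_le ?_
    split_ifs with h1
    · refine Finset.sup_le fun i hi => ?_
      rw [Finset.mem_Iic] at hi
      by_cases hij : i = j
      · rw [hij, hj]
        exact Nat.zero_le _
      · refine le_rmax x ?_
        rw [Fin.le_def] at hi ⊢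
        have : i.val ≠ j.val := fun h2 => hij (Fin.ext h2)
        simp only
        omega
    · refine Finset.sup_le fun i hi => ?_
      rw [Finset.mem_Iic, Fin.le_def] at hi
      have : i = j := Fin.ext (by omega)
      rw [this, hj]
  have hN : ∀ x : Fin k → ℕ, (∀ i, x i ≤ N) → ∀ j : Fin k, x j = N →
      (lab (rmax x)).val ≤ j := by
    intro x hx j hj
    by_contra h
    push Not at h
    refine hlab (rmax x) (rmax_mono x) (rmax_le x hx) ?_
    rw [gap, dif_pos (by omega : 0 < (lab (rmax x)).val)]
    refine Nat.sub_eq_zero_of_le ?_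
    have h1 : N ≤ rmax x ⟨(lab (rmax x)).val - 1, by omega⟩ := by
      rw [← hj]
      refine le_rmax x ?_
      rw [Fin.le_def]
      simp only
      omega
    refine le_trans ?_ h1
    split_ifs with h2
    · exact rmax_le x hx _
    · exact le_rfl
  obtain ⟨x, hx1, hx2⟩ := cube N (fun y => (lab (rmax y)).val) (fun y => (lab (rmax y)).isLt)
    h0 hN
  refine ⟨rmax x, rmax_mono x, rmax_le x fun i => by have := hx1 i; omega, fun j => ?_⟩
  obtain ⟨y, hy1, hy2, hy3⟩ := hx2 j.val j.isLt
  refine ⟨rmax y, rmax_mono y, rmax_le y fun i => by have := hx1 i; have := hy2 i; omega,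
    fun i => ⟨?_, ?_⟩, Fin.ext hy3⟩
  · exact Finset.sup_mono_fun fun b _ => hy1 b
  · refine Finset.sup_le fun b hb => ?_
    have h3 := le_rmax x (Finset.mem_Iic.mp hb)
    have h4 := hy2 b
    omega

end Pool.Agent.H98.EH.KKM
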